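import Pool.Agent.Q132.CJ.Rep

/-! # Project CJ: descent of classes -/

set_option autoImplicit false

namespace Pool.Agent.Q132.CJ

open Polynomial Pool.Agent.Q7.CJ

/-- a finite combination of the automorphisms which is the identity on the component of `1` -/
theorem dual_elements (L M : Type) [Field L] [Field M] [Algebra L M] [FiniteDimensional L M]
    [DecidableEq (M ≃ₐ[L] M)] :
    ∃ (s : Finset M) (c : M → M), ∀ τ : M ≃ₐ[L] M, ∑ m ∈ s, c m * τ m = if τ = 1 then 1 else 0 := by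
  obtain ⟨W, hW⟩ : ∃ W : Submodule M ((M ≃ₐ[L] M) → M),
      W = Submodule.span M (Set.range (fun (m : M) (τ : M ≃ₐ[L] M) => τ m)) := ⟨_, rfl⟩
  have hmem : Pi.single (1 : M ≃ₐ[L] M) (1 : M) ∈ W := by
    by_contra hcon
    obtain ⟨f, hf1, hf2⟩ := Submodule.exists_le_ker_of_notMem hcon
    have hli := (linearIndependent_monoidHom M M).comp
      (fun τ : M ≃ₐ[L] M => ((τ : M →+* M) : M →* M)) (by
        intro τ τ' h
        ext x
        exact DFunLike.congr_fun h x)
    rw [Fintype.linearIndependent_iff] at hli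
    have h2 := hli (fun τ => f (Pi.single τ 1)) (by
      ext m
      rw [Finset.sum_apply, Pi.zero_apply]
      have h3 : f (fun τ : M ≃ₐ[L] M => τ m) = 0 := by
        apply hf2
        rw [hW]
        exact Submodule.subset_span ⟨m, rfl⟩
      rw [← h3, pi_eq_sum_univ (fun τ : M ≃ₐ[L] M => τ m), map_sum]
      apply Finset.sum_congr rfl
      intro τ _
      rw [map_smul]
      show f (Pi.single τ 1) * τ m = τ m * f _
      rw [mul_comm]
      congr 2
      ext τ'
      rw [Pi.single_apply]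
      simp only [eq_comm]) 1
    exact hf1 h2
  rw [hW, Finsupp.mem_span_range_iff_exists_finsupp] at hmem
  obtain ⟨c, hc⟩ := hmem
  refine ⟨c.support, c, fun τ => ?_⟩
  have h2 := congrFun hc τ
  rw [Finsupp.sum, Finset.sum_apply, Pi.single_apply] at h2
  exact h2

section

variable (p : ℕ) {L : Type} [Field L] (D : L) {M : Type} [Field M] [Algebra L M]

theorem ga_cc (τ : M ≃ₐ[L] M) (m : M) :
    ga p D τ (cc p (algebraMap L M D) m) = cc p (algebraMap L M D) (τ m) := by
  unfold ga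
  rw [bc_cc]
  rfl

theorem ga_xx (τ : M ≃ₐ[L] M) : ga p D τ (xx p (algebraMap L M D)) = xx p (algebraMap L M D) := by
  unfold ga
  rw [bc_xx]

theorem ga_yy (τ : M ≃ₐ[L] M) : ga p D τ (yy p (algebraMap L M D)) = yy p (algebraMap L M D) := by
  unfold ga
  rw [bc_yy]

theorem ga_one (b : BR p (algebraMap L M D)) : ga p D (1 : M ≃ₐ[L] M) b = b := by
  have h : ga p D (1 : M ≃ₐ[L] M) = RingHom.id _ := by
    apply br_ext
    · intro a
      rw [ga_cc]
      rfl
    · rw [ga_yy]; rfl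
    · rw [ga_xx]; rfl
  rw [h]
  rfl

theorem ga_mul (τ τ' : M ≃ₐ[L] M) (b : BR p (algebraMap L M D)) :
    ga p D (τ * τ') b = ga p D τ (ga p D τ' b) := by
  have h : ga p D (τ * τ') = (ga p D τ).comp (ga p D τ') := by
    apply br_ext
    · intro a
      rw [ga_cc, RingHom.comp_apply, ga_cc, ga_cc]
      rfl
    · rw [ga_yy, RingHom.comp_apply, ga_yy, ga_yy]
    · rw [ga_xx, RingHom.comp_apply, ga_xx, ga_xx]
  rw [h]
  rfl

theorem ga_bc (τ : M ≃ₐ[L] M) (b : BR p D) :
    ga p D τ (bc p (algebraMap L M) D _ rfl b) = bc p (algebraMap L M) D _ rfl b := by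
  have h : (ga p D τ).comp (bc p (algebraMap L M) D _ rfl) = bc p (algebraMap L M) D _ rfl := by
    apply br_ext
    · intro a
      rw [RingHom.comp_apply, bc_cc, ga_cc, AlgEquiv.commutes]
    · rw [RingHom.comp_apply, bc_yy, ga_yy]
    · rw [RingHom.comp_apply, bc_xx, ga_xx]
  exact DFunLike.congr_fun h b

theorem cc_inj (a b : L) (h : cc p D a = cc p D b) : a = b := by
  have h1 : ax p D (C a - C b) + ax p D 0 * yy p D = 0 := by
    rw [map_sub, ax_C, ax_C, h, sub_self, map_zero, zero_mul, add_zero]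
  have h2 := (rep_unique p D _ _ h1).1
  rw [← C_sub, C_eq_zero, sub_eq_zero] at h2
  exact h2

theorem ga_inj : Function.Injective (ga p D : (M ≃ₐ[L] M) → _) := by
  intro τ τ' h
  ext m
  have h1 := DFunLike.congr_fun h (cc p (algebraMap L M D) m)
  rw [ga_cc, ga_cc] at h1
  exact cc_inj p _ _ _ h1

theorem ev_ga [Fact p.Prime] (τ : M ≃ₐ[L] M) (b : BR p (algebraMap L M D)) :
    ev p _ 0 0 (pt1 p _) (ga p D τ b) = τ (ev p (algebraMap L M D) 0 0 (pt1 p _) b) := by
  have h : (ev p _ 0 0 (pt1 p _)).comp (ga p D τ) =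
      ((τ : M →ₐ[L] M) : M →+* M).comp (ev p (algebraMap L M D) 0 0 (pt1 p _)) := by
    apply br_ext
    · intro a
      rw [RingHom.comp_apply, ga_cc, ev_cc, RingHom.comp_apply, ev_cc]
      rfl
    · rw [RingHom.comp_apply, ga_yy, ev_yy, RingHom.comp_apply, ev_yy, map_zero]
    · rw [RingHom.comp_apply, ga_xx, ev_xx, RingHom.comp_apply, ev_xx, map_zero]
  exact DFunLike.congr_fun h b

variable [FiniteDimensional L M] [IsGalois L M]

/-- the sum of the conjugates is defined over `L` -/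
theorem tr_mem (u : BR p (algebraMap L M D)) :
    ∃ β : BR p D, ∑ τ : M ≃ₐ[L] M, ga p D τ u = bc p (algebraMap L M) D _ rfl β := by
  have hadd : ∀ u v : BR p (algebraMap L M D),
      (∃ β : BR p D, ∑ τ : M ≃ₐ[L] M, ga p D τ u = bc p (algebraMap L M) D _ rfl β) →
      (∃ β : BR p D, ∑ τ : M ≃ₐ[L] M, ga p D τ v = bc p (algebraMap L M) D _ rfl β) →
      ∃ β : BR p D, ∑ τ : M ≃ₐ[L] M, ga p D τ (u + v) = bc p (algebraMap L M) D _ rfl β := by
    rintro u v ⟨β, h1⟩ ⟨γ, h2⟩
    refine ⟨β + γ, ?_⟩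
    rw [map_add, ← h1, ← h2, ← Finset.sum_add_distrib]
    exact Finset.sum_congr rfl fun τ _ => map_add _ _ _
  have hmon : ∀ (m : M) (β : BR p D), ∃ γ : BR p D, ∑ τ : M ≃ₐ[L] M,
      ga p D τ (cc p (algebraMap L M D) m * bc p (algebraMap L M) D _ rfl β) =
        bc p (algebraMap L M) D _ rfl γ := by
    intro m β
    refine ⟨cc p D (Algebra.trace L M m) * β, ?_⟩
    rw [map_mul, bc_cc, trace_eq_sum_automorphisms, cc_sum, Finset.sum_mul]
    apply Finset.sum_congr rfl
    intro τ _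
    rw [map_mul, ga_cc, ga_bc]
  have hax : ∀ (a : M[X]) (β : BR p D), ∃ γ : BR p D, ∑ τ : M ≃ₐ[L] M,
      ga p D τ (ax p (algebraMap L M D) a * bc p (algebraMap L M) D _ rfl β) =
        bc p (algebraMap L M) D _ rfl γ := by
    intro a β
    induction a using Polynomial.induction_on' with
    | add f g hf hg => rw [map_add, add_mul]; exact hadd _ _ hf hg
    | monomial n m =>
      obtain ⟨γ, hγ⟩ := hmon m (xx p D ^ n * β)
      refine ⟨γ, ?_⟩
      rw [← hγ]
      apply Finset.sum_congr rfl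
      intro τ _
      congr 1
      rw [← C_mul_X_pow_eq_monomial, map_mul, map_pow, ax_C, ax_X, map_mul, map_pow, bc_xx, mul_assoc]
  obtain ⟨a, b, rfl⟩ := exists_rep p _ u
  apply hadd
  · obtain ⟨γ, hγ⟩ := hax a 1
    refine ⟨γ, ?_⟩
    rw [← hγ, map_one, mul_one]
  · obtain ⟨γ, hγ⟩ := hax b (yy p D)
    refine ⟨γ, ?_⟩
    rw [← hγ, bc_yy]

/-- an ideal fixed by the Galois group is extended from `L` -/
theorem extended (A : Ideal (BR p (algebraMap L M D))) (hA : ∀ τ : M ≃ₐ[L] M, A.map (ga p D τ) = A) :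
    (A.comap (bc p (algebraMap L M) D _ rfl)).map (bc p (algebraMap L M) D _ rfl) = A := by
  classical
  apply le_antisymm Ideal.map_comap_le
  intro b hb
  obtain ⟨s, c, hc⟩ := dual_elements L M
  have h1 : b = ∑ m ∈ s, cc p (algebraMap L M D) (c m) * ∑ τ : M ≃ₐ[L] M, ga p D τ (cc p _ m * b) := by
    have h2 : ∀ τ : M ≃ₐ[L] M, ∑ m ∈ s, cc p (algebraMap L M D) (c m) * ga p D τ (cc p _ m * b) =
        if τ = 1 then b else 0 := by
      intro τ
      have h3 := congrArg (cc p (algebraMap L M D)) (hc τ)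
      rw [cc_sum] at h3
      calc ∑ m ∈ s, cc p (algebraMap L M D) (c m) * ga p D τ (cc p _ m * b)
          = (∑ m ∈ s, cc p (algebraMap L M D) (c m * τ m)) * ga p D τ b := by
            rw [Finset.sum_mul]
            apply Finset.sum_congr rfl
            intro m _
            rw [map_mul, ga_cc, cc_mul, mul_assoc]
        _ = if τ = 1 then b else 0 := by
            rw [h3]
            split_ifs with h4
            · rw [h4, ga_one, cc_one, one_mul]
            · rw [cc_zero, zero_mul]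
    simp_rw [Finset.mul_sum]
    rw [Finset.sum_comm]
    simp_rw [h2]
    rw [Finset.sum_ite_eq' Finset.univ (1 : M ≃ₐ[L] M), if_pos (Finset.mem_univ _)]
  rw [h1]
  apply Ideal.sum_mem
  intro m _
  apply Ideal.mul_mem_left
  obtain ⟨β, hβ⟩ := tr_mem p D (M := M) (cc p _ m * b)
  rw [hβ]
  apply Ideal.mem_map_of_mem
  rw [Ideal.mem_comap, ← hβ]
  apply Ideal.sum_mem
  intro τ _
  rw [← hA τ]
  exact Ideal.mem_map_of_mem _ (A.mul_mem_left _ hb)

end

/-- JOB D5 -/
theorem d5 : S_DED → S_NMM → S_MV → S_D5 := by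
  intro hDED hNMM hMV p _ _ L _ _ D hD M _ _ _ _ J hJ hsim
  have hD' : algebraMap L M D ≠ 0 := by
    rw [Ne, map_eq_zero]
    exact hD
  have : CharZero M := charZero_of_injective_algebraMap (algebraMap L M).injective
  have : IsDedekindDomain (BR p (algebraMap L M D)) := (hDED p M _ hD').1
  have ht1 := (hNMM p M _ hD').2.2.2.2.2.2.2.2.2.2.2.1
  have : (RingHom.ker (ev p (algebraMap L M D) 0 0 (pt1 p _))).IsPrime := RingHom.ker_isPrime _
  obtain ⟨A, hA0, hAf, a, b, ha, hb, hab⟩ := fixed_rep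
    (RingHom.ker (ev p (algebraMap L M D) 0 0 (pt1 p _))) (fun u hu h => t1_unit p _ u hu h)
    (fun a ha b hb => t1_norm p _ a ha b hb)
    (fun I hI => by
      obtain ⟨K, hK, hs, hK1, _⟩ := (hMV p M _ hD').1 I hI
      exact ⟨K, hK, hs, ht1 ▸ hK1⟩)
    (ga p D (M := M)) (ga_one p D) (ga_mul p D) (ga_inj p D)
    (fun τ b hb => by
      rw [RingHom.mem_ker] at hb ⊢
      rw [ev_ga, hb, map_zero]) J hJ hsim
  have hext := extended p D A hAf
  refine ⟨A.comap (bc p (algebraMap L M) D _ rfl), ?_, a, b, ha, hb, by rw [hext]; exact hab⟩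
  intro h
  rw [h, Ideal.map_bot] at hext
  exact hA0 hext.symm

end Pool.Agent.Q132.CJ
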