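import Mathlib

/-! # Ideals of a Dedekind domain whose class is fixed by a finite group

`B` is a Dedekind domain, `P` a prime ideal such that `1` is the only unit congruent to `1` modulo `P` and
every residue class outside `P` is reached from any other one by a unit.  A finite group `G` acts faithfully
on `B` and preserves `P`.  If the class of an ideal `K`, not contained in `P`, is fixed by `G`, then
the inverse class contains an ideal fixed by `G`. -/

set_option autoImplicit false

namespace Pool.Agent.Q132.CJ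

open Ideal

theorem pair_aux {B : Type} [CommRing B] [IsDomain B] [IsDedekindDomain B] (P : Ideal B) [P.IsPrime]
    (hN : ∀ a, a ∉ P → ∀ b, b ∉ P → ∃ c : B, IsUnit c ∧ c * a - b ∈ P)
    (I K : Ideal B) (hI : ¬ I ≤ P) (hK : ¬ K ≤ P) (a b : B) (ha : a ≠ 0) (hb : b ≠ 0)
    (h : span {a} * I = span {b} * K) :
    ∃ a' b' : B, a' ∉ P ∧ b' ∉ P ∧ a' - b' ∈ P ∧ span {a'} * I = span {b'} * K := by
  obtain ⟨i, hi, hiP⟩ := SetLike.not_le_iff_exists.1 hI
  obtain ⟨k, hk, hkP⟩ := SetLike.not_le_iff_exists.1 hK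
  have h1 : a * i ∈ span {b} * K := h ▸ mul_mem_mul (mem_span_singleton_self a) hi
  have h2 : b * k ∈ span {a} * I := h.symm ▸ mul_mem_mul (mem_span_singleton_self b) hk
  obtain ⟨k', hk', h3⟩ := mem_span_singleton_mul.1 h1
  obtain ⟨i', hi', h4⟩ := mem_span_singleton_mul.1 h2
  have h5 : i * k = k' * i' := by
    apply mul_left_cancel₀ (mul_ne_zero ha hb)
    linear_combination (b * k) * (-h3) + (b * k') * (-h4)
  have hk'P : k' ∉ P := by
    intro h6
    have h7 : i * k ∈ P := h5 ▸ P.mul_mem_right i' h6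
    rcases (‹P.IsPrime›).mem_or_mem h7 with h8 | h8
    · exact hiP h8
    · exact hkP h8
  obtain ⟨c, hc, hcP⟩ := hN k' hk'P i hiP
  refine ⟨c * k', i, ?_, hiP, hcP, ?_⟩
  · intro h6
    have h7 := P.sub_mem h6 hcP
    rw [sub_sub_cancel] at h7
    exact hiP h7
  · have h6 : span {c * k'} = span {k'} := by
      rw [span_singleton_eq_span_singleton]
      obtain ⟨u, rfl⟩ := hc
      exact ⟨u⁻¹, by rw [mul_comm, ← mul_assoc, Units.inv_mul, one_mul]⟩
    rw [h6]
    have h7 : span {b} ≠ (⊥ : Ideal B) := by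
      rw [Ne, span_singleton_eq_bot]
      exact hb
    apply mul_left_cancel₀ h7
    calc span {b} * (span {k'} * I) = span {b * k'} * I := by
          rw [← mul_assoc, span_singleton_mul_span_singleton]
      _ = span {a * i} * I := by rw [h3]
      _ = span {i} * (span {a} * I) := by
          rw [← mul_assoc, span_singleton_mul_span_singleton, mul_comm i a]
      _ = span {b} * (span {i} * K) := by rw [h, mul_left_comm]

theorem fixed_ideal {B : Type} [CommRing B] [IsDomain B] [IsDedekindDomain B] (P : Ideal B)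
    [P.IsPrime] (hU : ∀ u : B, IsUnit u → u - 1 ∈ P → u = 1)
    (hN : ∀ a, a ∉ P → ∀ b, b ∉ P → ∃ c : B, IsUnit c ∧ c * a - b ∈ P)
    {G : Type} [Group G] [Fintype G] (θ : G → B →+* B) (h1 : ∀ b, θ 1 b = b)
    (hm : ∀ g h b, θ (g * h) b = θ g (θ h b)) (hinj : Function.Injective θ)
    (hP : ∀ g, ∀ b ∈ P, θ g b ∈ P) (K : Ideal B) (hKP : ¬ K ≤ P)
    (hsim : ∀ g, ∃ a b : B, a ≠ 0 ∧ b ≠ 0 ∧ span {a} * K.map (θ g) = span {b} * K) :
    ∃ A : Ideal B, A ≠ ⊥ ∧ (∀ g, A.map (θ g) = A) ∧ ∃ b : B, b ≠ 0 ∧ A * K = span {b} := by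
  classical
  have hθi : ∀ g, Function.Injective (θ g) := by
    intro g x y hxy
    have h2 := congrArg (θ g⁻¹) hxy
    rwa [← hm, ← hm, inv_mul_cancel, h1, h1] at h2
  have hP' : ∀ g b, θ g b ∈ P → b ∈ P := by
    intro g b hb
    have h2 := hP g⁻¹ _ hb
    rwa [← hm, inv_mul_cancel, h1] at h2
  obtain ⟨k, hk, hkP⟩ := SetLike.not_le_iff_exists.1 hKP
  have hK0 : K ≠ ⊥ := by
    rintro rfl
    exact hKP bot_le
  have hpair : ∀ g, ∃ a b : B, a ∉ P ∧ b ∉ P ∧ a - b ∈ P ∧
      span {a} * K.map (θ g) = span {b} * K := by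
    intro g
    obtain ⟨a, b, ha, hb, h⟩ := hsim g
    refine pair_aux P hN _ _ ?_ hKP a b ha hb h
    intro h2
    exact hkP (hP' g k (h2 (mem_map_of_mem _ hk)))
  choose a b ha hb hab hI using hpair
  have hne : ∀ x : B, x ∉ P → x ≠ 0 := fun x hx e => hx (e ▸ P.zero_mem)
  have hKg0 : ∀ g, K.map (θ g) ≠ ⊥ := by
    intro g h2
    have h3 := mem_map_of_mem (θ g) hk
    rw [h2, mem_bot] at h3
    exact hne k hkP (hθi g (by rw [h3, map_zero]))
  -- the cocycle relation
  have hco : ∀ g h, a g * θ g (a h) * b (g * h) = b g * θ g (b h) * a (g * h) := by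
    intro g h
    have hmap : span {θ g (a h)} * K.map (θ (g * h)) = span {θ g (b h)} * K.map (θ g) := by
      have h2 := congrArg (Ideal.map (θ g)) (hI h)
      rw [Ideal.map_mul, Ideal.map_mul, Ideal.map_span, Ideal.map_span, Set.image_singleton,
        Set.image_singleton, Ideal.map_map] at h2
      have h3 : (θ g).comp (θ h) = θ (g * h) := by
        ext x
        exact (hm g h x).symm
      rwa [h3] at h2
    have h2 : span {a g * θ g (a h) * b (g * h)} * K.map (θ (g * h)) =
        span {b g * θ g (b h) * a (g * h)} * K.map (θ (g * h)) := by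
      calc span {a g * θ g (a h) * b (g * h)} * K.map (θ (g * h))
          = span {b (g * h)} * (span {a g} * (span {θ g (a h)} * K.map (θ (g * h)))) := by
            simp only [← mul_assoc, span_singleton_mul_span_singleton]
            congr 3
            ring
        _ = span {b (g * h)} * (span {θ g (b h)} * (span {a g} * K.map (θ g))) := by
            rw [hmap]
            congr 1
            rw [mul_left_comm]
        _ = span {θ g (b h)} * (span {b g} * (span {b (g * h)} * K)) := by
            rw [hI g]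
            rw [mul_left_comm]
            congr 1
            rw [mul_left_comm]
        _ = span {b g * θ g (b h) * a (g * h)} * K.map (θ (g * h)) := by
            rw [← hI (g * h)]
            simp only [← mul_assoc, span_singleton_mul_span_singleton]
            congr 3
            ring
    have h3 := mul_right_cancel₀ (hKg0 (g * h)) h2
    rw [span_singleton_eq_span_singleton] at h3
    obtain ⟨u, hu⟩ := h3
    have hPa : ∀ x y, x ∉ P → y ∉ P → x * y ∉ P := fun x y hx hy h4 =>
      ((‹P.IsPrime›).mem_or_mem h4).elim hx hy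
    have h4 : a g * θ g (a h) * b (g * h) ∉ P :=
      hPa _ _ (hPa _ _ (ha g) (fun h5 => ha h (hP' g _ h5))) (hb _)
    have h5 : b g * θ g (b h) * a (g * h) - a g * θ g (a h) * b (g * h) ∈ P := by
      have e1 := hab g
      have e2 := hP g _ (hab h)
      rw [map_sub] at e2
      have e3 := hab (g * h)
      have : b g * θ g (b h) * a (g * h) - a g * θ g (a h) * b (g * h) =
          b g * θ g (b h) * (a (g * h) - b (g * h)) - (a g - b g) * (θ g (b h) * b (g * h)) -
            (θ g (a h) - θ g (b h)) * (a g * b (g * h)) := by ring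
      rw [this]
      exact P.sub_mem (P.sub_mem (P.mul_mem_left _ e3) (P.mul_mem_right _ e1))
        (P.mul_mem_right _ e2)
    rw [← hu] at h5
    have h6 : (a g * θ g (a h) * b (g * h)) * ((u : B) - 1) ∈ P := by
      rw [mul_sub, mul_one]
      exact h5
    have h7 := ((‹P.IsPrime›).mem_or_mem h6).resolve_left h4
    have h8 := hU u u.isUnit h7
    rw [h8, mul_one] at hu
    exact hu
  -- the action on `K`
  have hφ : ∀ g c, ∃ d, c ∈ K → d ∈ K ∧ b g * d = a g * θ g c := by
    intro g c
    by_cases hc : c ∈ K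
    · have h2 : a g * θ g c ∈ span {b g} * K :=
        hI g ▸ mul_mem_mul (mem_span_singleton_self _) (mem_map_of_mem _ hc)
      obtain ⟨d, hd, h3⟩ := mem_span_singleton_mul.1 h2
      exact ⟨d, fun _ => ⟨hd, h3⟩⟩
    · exact ⟨0, fun h => absurd h hc⟩
  choose φ hφ' using hφ
  have hφK : ∀ g, ∀ c ∈ K, φ g c ∈ K := fun g c hc => (hφ' g c hc).1
  have hφe : ∀ g, ∀ c ∈ K, b g * φ g c = a g * θ g c := fun g c hc => (hφ' g c hc).2
  have hφφ : ∀ g h, ∀ c ∈ K, φ g (φ h c) = φ (g * h) c := by
    intro g h c hc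
    have e1 := hφe g _ (hφK h c hc)
    have e2 := congrArg (θ g) (hφe h c hc)
    rw [map_mul, map_mul, ← hm] at e2
    have e3 := hφe (g * h) c hc
    have e4 := hco g h
    have hz : b g * θ g (b h) * a (g * h) ≠ 0 := by
      refine mul_ne_zero (mul_ne_zero (hne _ (hb g)) ?_) (hne _ (ha _))
      exact fun h5 => hne _ (hb h) (hθi g (by rw [h5, map_zero]))
    apply mul_left_cancel₀ hz
    linear_combination (θ g (b h) * a (g * h)) * e1 + (a g * a (g * h)) * e2 -
      (a g * θ g (a h)) * e3 + φ (g * h) c * e4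
  -- a nonzero sum
  obtain ⟨c, hc, hs⟩ : ∃ c ∈ K, ∑ g, φ g c ≠ 0 := by
    by_contra hcon
    push Not at hcon
    have hli := linearIndependent_monoidHom B B
    have hli2 : LinearIndependent B (fun g : G => ((θ g : B →* B) : B → B)) := by
      refine hli.comp (fun g : G => (θ g : B →* B)) ?_
      intro g g' hgg
      apply hinj
      ext x
      exact DFunLike.congr_fun hgg x
    rw [Fintype.linearIndependent_iff] at hli2
    have h2 := hli2 (fun g => φ g k) (by
      ext r
      rw [Finset.sum_apply]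
      have h3 := hcon (k * r) (K.mul_mem_right r hk)
      rw [Pi.zero_apply, ← h3]
      apply Finset.sum_congr rfl
      intro g _
      have e1 := hφe g k hk
      have e2 := hφe g (k * r) (K.mul_mem_right r hk)
      rw [map_mul] at e2
      apply mul_left_cancel₀ (hne _ (hb g))
      show b g * (φ g k * θ g r) = b g * φ g (k * r)
      linear_combination θ g r * e1 - e2) 1
    have h3 := hφe 1 k hk
    rw [h2, mul_zero, h1] at h3
    exact mul_ne_zero (hne _ (ha 1)) (hne _ hkP) h3.symm
  obtain ⟨β, hβ⟩ : ∃ β, β = ∑ g, φ g c := ⟨_, rfl⟩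
  rw [← hβ] at hs
  have hβK : β ∈ K := by
    rw [hβ]
    exact K.sum_mem fun g _ => hφK g c hc
  have hβe : ∀ g, a g * θ g β = b g * β := by
    intro g
    rw [hβ, map_sum, Finset.mul_sum, Finset.mul_sum]
    have h2 : ∑ h, b g * φ h c = ∑ h, b g * φ (g * h) c :=
      (Equiv.sum_comp (Equiv.mulLeft g) (fun h => b g * φ h c)).symm
    rw [h2]
    apply Finset.sum_congr rfl
    intro h _
    rw [← hφφ g h c hc, hφe g _ (hφK h c hc)]
  obtain ⟨A, hA⟩ : K ∣ span {β} := by
    rw [Ideal.dvd_iff_le, span_singleton_le_iff_mem]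
    exact hβK
  have hA0 : A ≠ ⊥ := by
    rintro rfl
    rw [mul_bot, span_singleton_eq_bot] at hA
    exact hs hA
  refine ⟨A, hA0, fun g => ?_, β, hs, by rw [mul_comm, hA]⟩
  have h2 := congrArg (Ideal.map (θ g)) hA
  rw [Ideal.map_mul, Ideal.map_span, Set.image_singleton] at h2
  have h3 : (span {a g} * K.map (θ g)) * A.map (θ g) = (span {a g} * K.map (θ g)) * A := by
    calc (span {a g} * K.map (θ g)) * A.map (θ g) = span {a g} * span {θ g β} := by
          rw [mul_assoc, ← h2]
      _ = span {b g} * span {β} := by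
          rw [span_singleton_mul_span_singleton, span_singleton_mul_span_singleton, hβe]
      _ = (span {a g} * K.map (θ g)) * A := by
          rw [hA, ← mul_assoc, hI g]
  refine mul_left_cancel₀ (mul_ne_zero ?_ (hKg0 g)) h3
  rw [Ne, Ideal.zero_eq_bot, span_singleton_eq_bot]
  exact hne _ (ha g)

end Pool.Agent.Q132.CJ
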