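import Pool.Agent.Q132.CJ.Units
import Pool.Agent.Q132.CJ.Grp
import Pool.Agent.Q7.CJ.Stm

/-! # Project CJ: a fixed ideal in a class fixed by a group -/

set_option autoImplicit false

namespace Pool.Agent.Q132.CJ

open Polynomial Pool.Agent.Q7.CJ

/-- a class fixed by a group contains a fixed ideal -/
theorem fixed_rep {B : Type} [CommRing B] [IsDomain B] [IsDedekindDomain B] (P : Ideal B)
    [P.IsPrime] (hU : ∀ u : B, IsUnit u → u - 1 ∈ P → u = 1)
    (hN : ∀ a, a ∉ P → ∀ b, b ∉ P → ∃ c : B, IsUnit c ∧ c * a - b ∈ P)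
    (hMV : ∀ I : Ideal B, I ≠ ⊥ → ∃ K : Ideal B, K ≠ ⊥ ∧ (∃ a b : B, a ≠ 0 ∧ b ≠ 0 ∧
      Ideal.span {a} * I = Ideal.span {b} * K) ∧ ¬ K ≤ P)
    {G : Type} [Group G] [Fintype G] (θ : G → B →+* B) (h1 : ∀ b, θ 1 b = b)
    (hm : ∀ g h b, θ (g * h) b = θ g (θ h b)) (hinj : Function.Injective θ)
    (hP : ∀ g, ∀ b ∈ P, θ g b ∈ P) (J : Ideal B) (hJ : J ≠ ⊥)
    (hsim : ∀ g, ∃ a b : B, a ≠ 0 ∧ b ≠ 0 ∧
      Ideal.span {a} * J.map (θ g) = Ideal.span {b} * J) :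
    ∃ A : Ideal B, A ≠ ⊥ ∧ (∀ g, A.map (θ g) = A) ∧
      ∃ a b : B, a ≠ 0 ∧ b ≠ 0 ∧ Ideal.span {a} * A = Ideal.span {b} * J := by
  have hθi : ∀ g, Function.Injective (θ g) := by
    intro g x y hxy
    have h2 := congrArg (θ g⁻¹) hxy
    rwa [← hm, ← hm, inv_mul_cancel, h1, h1] at h2
  obtain ⟨k, hk, hk0⟩ := Submodule.exists_mem_ne_zero_of_ne_bot hJ
  obtain ⟨K0, hK0⟩ : J ∣ Ideal.span {k} := by
    rw [Ideal.dvd_iff_le, Ideal.span_singleton_le_iff_mem]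
    exact hk
  have hK00 : K0 ≠ ⊥ := by
    rintro rfl
    rw [Ideal.mul_bot, Ideal.span_singleton_eq_bot] at hK0
    exact hk0 hK0
  obtain ⟨K, hK, ⟨a, b, ha, hb, hab⟩, hKP⟩ := hMV K0 hK00
  -- `(b) K J = (κ)`
  obtain ⟨κ, hκ⟩ : ∃ κ, κ = a * k := ⟨_, rfl⟩
  have hκ0 : κ ≠ 0 := by rw [hκ]; exact mul_ne_zero ha hk0
  have hbK : Ideal.span {b} * K * J = Ideal.span {κ} := by
    rw [← hab, hκ, ← Ideal.span_singleton_mul_span_singleton, hK0]
    ring
  have hsimK : ∀ g, ∃ a b : B, a ≠ 0 ∧ b ≠ 0 ∧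
      Ideal.span {a} * K.map (θ g) = Ideal.span {b} * K := by
    intro g
    obtain ⟨a', b', ha', hb', h2⟩ := hsim g
    have h3 := congrArg (Ideal.map (θ g)) hbK
    rw [Ideal.map_mul, Ideal.map_mul, Ideal.map_span, Ideal.map_span, Set.image_singleton,
      Set.image_singleton] at h3
    refine ⟨θ g b * b' * κ, θ g κ * a' * b, ?_, ?_, ?_⟩
    · refine mul_ne_zero (mul_ne_zero ?_ hb') hκ0
      exact fun h4 => hb (hθi g (by rw [h4, map_zero]))
    · refine mul_ne_zero (mul_ne_zero ?_ ha') hb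
      exact fun h4 => hκ0 (hθi g (by rw [h4, map_zero]))
    · rw [← Ideal.span_singleton_mul_span_singleton, ← Ideal.span_singleton_mul_span_singleton,
        ← Ideal.span_singleton_mul_span_singleton, ← Ideal.span_singleton_mul_span_singleton]
      calc Ideal.span {θ g b} * Ideal.span {b'} * Ideal.span {κ} * K.map (θ g)
          = Ideal.span {θ g b} * Ideal.span {b'} * (Ideal.span {b} * K * J) * K.map (θ g) := by
            rw [hbK]
        _ = Ideal.span {θ g b} * (Ideal.span {b'} * J) * (Ideal.span {b} * K) * K.map (θ g) := by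
            ring
        _ = Ideal.span {θ g b} * (Ideal.span {a'} * J.map (θ g)) * (Ideal.span {b} * K) *
              K.map (θ g) := by rw [h2]
        _ = (Ideal.span {θ g b} * K.map (θ g) * J.map (θ g)) * Ideal.span {a'} *
              Ideal.span {b} * K := by ring
        _ = Ideal.span {θ g κ} * Ideal.span {a'} * Ideal.span {b} * K := by rw [h3]
  obtain ⟨A, hA0, hAf, β, hβ, hAβ⟩ := fixed_ideal P hU hN θ h1 hm hinj hP K hKP hsimK
  refine ⟨A, hA0, hAf, κ, b * β, hκ0, mul_ne_zero hb hβ, ?_⟩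
  rw [← Ideal.span_singleton_mul_span_singleton, ← hbK, ← hAβ]
  ring

section

variable (p : ℕ) {L : Type} [Field L] (D : L)

theorem ev_cc (x₀ y₀ : L) (h : x₀ ^ p = y₀ ^ 2 + D * y₀) (m : L) : ev p D x₀ y₀ h (cc p D m) = m := by
  unfold cc
  rw [ev_of, eval_C]

theorem cc_mul (a b : L) : cc p D (a * b) = cc p D a * cc p D b := by
  unfold cc
  rw [C_mul, map_mul]

theorem cc_one : cc p D 1 = 1 := by
  unfold cc
  rw [C_1, map_one]

theorem cc_zero : cc p D 0 = 0 := by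
  unfold cc
  rw [C_0, map_zero]

theorem cc_sum {ι : Type} (s : Finset ι) (f : ι → L) : cc p D (∑ i ∈ s, f i) = ∑ i ∈ s, cc p D (f i) :=
  map_sum (ccHom p D) f s

theorem br_ext {S : Type} [CommRing S] (f g : BR p D →+* S) (hc : ∀ a, f (cc p D a) = g (cc p D a))
    (hy : f (yy p D) = g (yy p D)) (hx : f (xx p D) = g (xx p D)) : f = g := by
  apply AdjoinRoot.ringHom_ext
  · apply Polynomial.ringHom_ext
    · exact hc
    · exact hy
  · exact hx

variable [Fact p.Prime] [Fact (p ≠ 2)]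

theorem p_odd : Odd p := (Fact.out (p := p.Prime)).odd_of_ne_two Fact.out

theorem t1_unit (u : BR p D) (hu : IsUnit u) (h : u - 1 ∈ RingHom.ker (ev p D 0 0 (pt1 p D))) : u = 1 := by
  obtain ⟨m, _, rfl⟩ := unit_const p D (p_odd p) u hu
  rw [RingHom.mem_ker, map_sub, ev_cc, map_one, sub_eq_zero] at h
  rw [h, cc_one]

theorem t1_norm (a : BR p D) (ha : a ∉ RingHom.ker (ev p D 0 0 (pt1 p D))) (b : BR p D)
    (hb : b ∉ RingHom.ker (ev p D 0 0 (pt1 p D))) :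
    ∃ c : BR p D, IsUnit c ∧ c * a - b ∈ RingHom.ker (ev p D 0 0 (pt1 p D)) := by
  rw [RingHom.mem_ker] at ha hb
  refine ⟨cc p D (ev p D 0 0 (pt1 p D) b / ev p D 0 0 (pt1 p D) a), ?_, ?_⟩
  · refine IsUnit.of_mul_eq_one (cc p D (ev p D 0 0 (pt1 p D) a / ev p D 0 0 (pt1 p D) b)) ?_
    rw [← cc_mul, div_mul_div_cancel₀ ha, div_self hb, cc_one]
  · rw [RingHom.mem_ker, map_sub, map_mul, ev_cc, div_mul_cancel₀ _ ha, sub_self]

end

end Pool.Agent.Q132.CJ
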