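import Pool.Agent.Q7.CJ.Def

/-! # Project CJ: the units of the coordinate ring are the constants -/

set_option autoImplicit false

namespace Pool.Agent.Q132.CJ

open Polynomial Pool.Agent.Q7.CJ

section

variable (p : ℕ) {L : Type} [Field L] (D : L)

/-- the constants, as a ring homomorphism -/
noncomputable def ccHom : L →+* BR p D := (AdjoinRoot.of (ff p D)).comp C

/-- a polynomial in `x` -/
noncomputable def ax : L[X] →+* BR p D := eval₂RingHom (ccHom p D) (xx p D)

theorem ax_C (a : L) : ax p D (C a) = cc p D a := by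
  unfold ax
  rw [coe_eval₂RingHom, eval₂_C]
  rfl

theorem ax_X : ax p D X = xx p D := by
  unfold ax
  rw [coe_eval₂RingHom, eval₂_X]

/-- every element is `a(x) + b(x) y` -/
theorem exists_rep (u : BR p D) : ∃ a b : L[X], u = ax p D a + ax p D b * yy p D := by
  have hmul : ∀ u v : BR p D, (∃ a b : L[X], u = ax p D a + ax p D b * yy p D) →
      (∃ a b : L[X], v = ax p D a + ax p D b * yy p D) →
      ∃ a b : L[X], u * v = ax p D a + ax p D b * yy p D := by
    rintro u v ⟨a, b, rfl⟩ ⟨c, d, rfl⟩
    refine ⟨a * c + b * d * X ^ p, a * d + b * c - C D * (b * d), ?_⟩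
    have h := curve_eq p D
    simp only [map_add, map_sub, map_mul, map_pow, ax_X, ax_C]
    rw [← h]
    ring
  have hadd : ∀ u v : BR p D, (∃ a b : L[X], u = ax p D a + ax p D b * yy p D) →
      (∃ a b : L[X], v = ax p D a + ax p D b * yy p D) →
      ∃ a b : L[X], u + v = ax p D a + ax p D b * yy p D := by
    rintro u v ⟨a, b, rfl⟩ ⟨c, d, rfl⟩
    refine ⟨a + c, b + d, ?_⟩
    simp only [map_add]
    ring
  have hone : ∃ a b : L[X], (1 : BR p D) = ax p D a + ax p D b * yy p D := ⟨1, 0, by simp⟩
  have hpow : ∀ (u : BR p D) (n : ℕ), (∃ a b : L[X], u = ax p D a + ax p D b * yy p D) →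
      ∃ a b : L[X], u ^ n = ax p D a + ax p D b * yy p D := by
    intro u n hu
    induction n with
    | zero => rw [pow_zero]; exact hone
    | succ n ih => rw [pow_succ]; exact hmul _ _ ih hu
  have hof : ∀ g : L[X], ∃ a b : L[X], AdjoinRoot.of (ff p D) g = ax p D a + ax p D b * yy p D := by
    intro g
    induction g using Polynomial.induction_on' with
    | add f g hf hg => rw [map_add]; exact hadd _ _ hf hg
    | monomial n a =>
      rw [← C_mul_X_pow_eq_monomial, map_mul, map_pow]
      refine hmul _ _ ⟨C a, 0, ?_⟩ (hpow _ _ ⟨0, 1, ?_⟩)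
      · rw [ax_C, map_zero, zero_mul, add_zero]
        rfl
      · rw [map_zero, map_one, one_mul, zero_add]
        rfl
  induction u using AdjoinRoot.induction_on with
  | ih g =>
    induction g using Polynomial.induction_on' with
    | add f g hf hg => rw [map_add]; exact hadd _ _ hf hg
    | monomial n a =>
      rw [← C_mul_X_pow_eq_monomial, map_mul, map_pow, AdjoinRoot.mk_C, AdjoinRoot.mk_X]
      refine hmul _ _ (hof a) (hpow _ _ ⟨X, 0, ?_⟩)
      rw [ax_X, map_zero, zero_mul, add_zero]
      rfl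

/-- the equation of the curve as a polynomial in `y` over `L[x]` -/
noncomputable def gg : L[X][X] := X ^ 2 + C (C D) * X - C (X ^ p)

theorem gg_monic : (gg p D).Monic := by
  unfold gg
  monicity!

theorem gg_degree : (gg p D).degree = 2 := by
  unfold gg
  compute_degree!

/-- the other presentation of the ring -/
noncomputable def sw : BR p D →+* AdjoinRoot (gg p D) :=
  AdjoinRoot.lift (eval₂RingHom ((AdjoinRoot.of (gg p D)).comp C) (AdjoinRoot.root (gg p D)))
    (AdjoinRoot.of (gg p D) X) (by
      rw [eval₂_ff]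
      have h : AdjoinRoot.mk (gg p D) (X ^ 2 + C (C D) * X - C (X ^ p)) = 0 := by
        rw [AdjoinRoot.mk_eq_zero]
        exact dvd_rfl
      rw [map_sub, map_add, map_mul, map_pow, AdjoinRoot.mk_X, AdjoinRoot.mk_C, AdjoinRoot.mk_C,
        map_pow, sub_eq_zero] at h
      rw [← h, sub_eq_zero]
      simp)

theorem sw_rep (a b : L[X]) : sw p D (ax p D a + ax p D b * yy p D) =
    AdjoinRoot.mk (gg p D) (C a + C b * X) := by
  have h1 : sw p D (yy p D) = AdjoinRoot.root (gg p D) := by
    unfold sw yy
    rw [AdjoinRoot.lift_of]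
    simp
  have h2 : (sw p D).comp (ax p D) = AdjoinRoot.of (gg p D) := by
    apply Polynomial.ringHom_ext
    · intro a
      rw [RingHom.comp_apply, ax_C]
      unfold sw cc
      rw [AdjoinRoot.lift_of]
      simp
    · rw [RingHom.comp_apply, ax_X]
      unfold sw xx
      rw [AdjoinRoot.lift_root]
  have h3 : ∀ a, sw p D (ax p D a) = AdjoinRoot.of (gg p D) a := fun a => by
    rw [← h2, RingHom.comp_apply]
  rw [map_add, map_mul, h1, h3, h3, map_add, map_mul, AdjoinRoot.mk_X, AdjoinRoot.mk_C,
    AdjoinRoot.mk_C]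

/-- the representation is unique -/
theorem rep_unique (a b : L[X]) (h : ax p D a + ax p D b * yy p D = 0) : a = 0 ∧ b = 0 := by
  have h1 := congrArg (sw p D) h
  rw [sw_rep, map_zero, AdjoinRoot.mk_eq_zero] at h1
  have h2 : (C a + C b * X : L[X][X]) = 0 := by
    by_contra h3
    refine (gg_monic p D).not_dvd_of_degree_lt h3 ?_ h1
    rw [gg_degree]
    refine (degree_add_le _ _).trans_lt ?_
    rw [max_lt_iff]
    constructor
    · exact degree_C_le.trans_lt (by norm_num)
    · exact (degree_C_mul_X_le _).trans_lt (by norm_num)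
  constructor
  · have h3 := congrArg (fun q : L[X][X] => q.coeff 0) h2
    simpa using h3
  · have h3 := congrArg (fun q : L[X][X] => q.coeff 1) h2
    simpa using h3

/-- the norm of `a + b y` over `L[x]` -/
noncomputable def nn (a b : L[X]) : L[X] := a ^ 2 - C D * (a * b) - b ^ 2 * X ^ p

theorem nn_mul (a b c d : L[X]) : nn p D a b * nn p D c d =
    nn p D (a * c + b * d * X ^ p) (a * d + b * c - C D * (b * d)) := by
  unfold nn
  ring

theorem nn_deg (hp : Odd p) (a b : L[X]) (hb : b ≠ 0) : 0 < (nn p D a b).natDegree := by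
  have h1 : (b ^ 2 * X ^ p : L[X]).natDegree = 2 * b.natDegree + p := by
    rw [natDegree_mul (pow_ne_zero _ hb) (pow_ne_zero _ X_ne_zero), natDegree_pow, natDegree_X_pow]
  have hp0 := hp.pos
  unfold nn
  by_cases ha : a = 0
  · subst ha
    rw [zero_mul, mul_zero, zero_pow two_ne_zero, sub_zero, zero_sub, natDegree_neg, h1]
    omega
  · have h2 : (a ^ 2 : L[X]).natDegree = 2 * a.natDegree := natDegree_pow _ _
    have h3 : (C D * (a * b) : L[X]).natDegree ≤ a.natDegree + b.natDegree :=
      (natDegree_C_mul_le _ _).trans natDegree_mul_le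
    obtain ⟨k, hk⟩ := hp
    rcases lt_or_gt_of_ne (show 2 * a.natDegree ≠ 2 * b.natDegree + p by omega) with h4 | h4
    · have h5 : (a ^ 2 - C D * (a * b) : L[X]).natDegree < (b ^ 2 * X ^ p : L[X]).natDegree := by
        refine (natDegree_sub_le _ _).trans_lt ?_
        rw [max_lt_iff]
        omega
      rw [natDegree_sub_eq_right_of_natDegree_lt h5, h1]
      omega
    · have h5 : (a ^ 2 - C D * (a * b) : L[X]).natDegree = 2 * a.natDegree := by
        rw [natDegree_sub_eq_left_of_natDegree_lt, h2]
        omega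
      rw [natDegree_sub_eq_left_of_natDegree_lt, h5]
      · omega
      · omega

/-- **the units of `L[x, y] / (x^p - y² - D y)` are the constants**, `p` odd -/
theorem unit_const (hp : Odd p) (u : BR p D) (hu : IsUnit u) : ∃ m : L, m ≠ 0 ∧ u = cc p D m := by
  obtain ⟨v, huv⟩ := hu.exists_right_inv
  obtain ⟨a, b, rfl⟩ := exists_rep p D u
  obtain ⟨c, d, rfl⟩ := exists_rep p D v
  have h1 : ax p D (a * c + b * d * X ^ p - 1) + ax p D (a * d + b * c - C D * (b * d)) * yy p D = 0 := by
    have h := curve_eq p D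
    simp only [map_add, map_sub, map_mul, map_pow, ax_X, ax_C, map_one]
    rw [← h, ← sub_eq_zero.2 huv]
    ring
  obtain ⟨h2, h3⟩ := rep_unique p D _ _ h1
  have h4 := nn_mul p D a b c d
  rw [h3, sub_eq_zero.1 h2] at h4
  have h5 : nn p D a b * nn p D c d = 1 := by
    rw [h4]
    unfold nn
    simp
  have h6 : (nn p D a b).natDegree = 0 := natDegree_eq_zero_of_isUnit (IsUnit.of_mul_eq_one _ h5)
  have hb : b = 0 := by
    by_contra hb
    have := nn_deg p D hp a b hb
    omega
  subst hb
  have h7 : a * a * nn p D c d = 1 := by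
    rw [← h5]
    unfold nn
    ring
  have h8 : IsUnit a := IsUnit.of_mul_eq_one (a * nn p D c d) (by rw [← mul_assoc]; exact h7)
  obtain ⟨m, hm⟩ := Polynomial.isUnit_iff.1 h8
  refine ⟨m, hm.1.ne_zero, ?_⟩
  rw [← hm.2, ax_C, map_zero, zero_mul, add_zero]

end

end Pool.Agent.Q132.CJ
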